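import Mathlib

/-!
MP_aa96c4_al, project GM.  The torsion lemma, for every prime `p` and every exponent `p ^ e`:
if `x ^ (p ^ e) = 1` on a finite abelian `p`-group `F` and `(x - 1) ^ 3 F ≤ p ^ (4 e) F`, then
`x` is trivial on `p ^ (4 e) F`.  (memo_P2_helper41.md, section 2.)
-/

namespace Pool.Agent.Helper41.GM

/-- `(1 + u) ^ n = 1 + n u + u ^ 2 c` with `c` commuting with `u`. -/
theorem one_add_pow {R : Type*} [Ring R] (u : R) (n : ℕ) :
    ∃ c : R, Commute u c ∧ (1 + u) ^ n = 1 + (n : R) * u + u ^ 2 * c := by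
  induction n with
  | zero => exact ⟨0, Commute.zero_right u, by simp⟩
  | succ n ih =>
    obtain ⟨c, hc, h⟩ := ih
    refine ⟨(n : R) + c + u * c, ?_, ?_⟩
    · exact ((Nat.commute_cast u n).add_right hc).add_right ((Commute.refl u).mul_right hc)
    · have h1 : (n : R) * u = u * n := (Nat.commute_cast u n).eq.symm
      have h2 : u * c = c * u := hc.eq
      rw [pow_succ, h]
      push_cast
      have e1 : (n : R) * u * u = u * u * n := by rw [h1, mul_assoc, h1, mul_assoc]
      have e2 : u * u * c * u = u * u * (u * c) := by rw [mul_assoc (u * u), ← h2]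
      simp only [sq, mul_add, add_mul, mul_one, one_mul, e1, e2]
      abel

/-- `u = x - 1` is nilpotent when `x ^ (p ^ e) = 1` and `p` is nilpotent. -/
theorem sub_one_nilpotent {R : Type*} [Ring R] {p : ℕ} (hp : p.Prime) {x : R} {e k : ℕ}
    (hx : x ^ (p ^ e) = 1) (hk : (p : R) ^ k = 0) : ∃ N, (x - 1) ^ N = 0 := by
  set u := x - 1 with hu
  have hxu : x = u + 1 := by rw [hu]; abel
  obtain ⟨r, hr⟩ := (Commute.one_right u).exists_add_pow_prime_pow_eq hp e
  rw [← hxu, hx, one_pow, mul_assoc, mul_assoc] at hr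
  have h1 : u ^ (p ^ e) = (p : R) * (-(u * (1 * r))) := by
    have h2 : u ^ (p ^ e) + (p : R) * (u * (1 * r)) = 0 := by
      have h3 : 1 + (u ^ (p ^ e) + (p : R) * (u * (1 * r))) = 1 := by
        rw [← add_assoc, add_comm 1 (u ^ (p ^ e))]
        exact hr.symm
      exact add_eq_left.1 h3
    rw [mul_neg]
    exact eq_neg_of_add_eq_zero_left h2
  refine ⟨p ^ e * k, ?_⟩
  rw [pow_mul, h1, ((Nat.cast_commute p _)).mul_pow, hk, zero_mul]

/-- The torsion lemma. -/
theorem torsion {F : Type*} [AddCommGroup F] {p : ℕ} (hp : p.Prime) {k e : ℕ}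
    (hF : ∀ f : F, p ^ k • f = 0) {x : AddMonoid.End F} (hx : x ^ (p ^ e) = 1)
    (h3 : ∀ f : F, ∃ g : F, ((x - 1) ^ 3 : AddMonoid.End F) f = p ^ (4 * e) • g) (f : F) :
    x (p ^ (4 * e) • f) = p ^ (4 * e) • f := by
  set u := x - 1 with hu
  have hxu : x = 1 + u := by rw [hu]; abel
  have hpk : (p : AddMonoid.End F) ^ k = 0 := by
    apply AddMonoidHom.ext
    intro f
    rw [← Nat.cast_pow]
    exact hF f
  obtain ⟨N, hN⟩ := sub_one_nilpotent hp hx hpk
  obtain ⟨c, hc, hexp⟩ := one_add_pow u (p ^ e)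
  rw [← hxu, hx] at hexp
  -- `p ^ e u = - u ^ 2 c`
  set q : AddMonoid.End F := ((p ^ e : ℕ) : AddMonoid.End F) with hq
  have h1 : q * u = u ^ 2 * (-c) := by
    have h2 : q * u + u ^ 2 * c = 0 := by
      have h4 : 1 + (q * u + u ^ 2 * c) = 1 := by
        rw [← add_assoc]; exact hexp.symm
      exact add_eq_left.1 h4
    rw [mul_neg]
    exact eq_neg_of_add_eq_zero_left h2
  set d : AddMonoid.End F := -c with hd
  have hd' : Commute u d := hc.neg_right
  have h4 : ∀ j, q ^ j * u = u ^ (j + 1) * d ^ j := by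
    intro j
    induction j with
    | zero => simp
    | succ j ih =>
      calc q ^ (j + 1) * u = q ^ j * (q * u) := by rw [pow_succ, mul_assoc]
        _ = (q ^ j * u) * (u * d) := by rw [h1, sq]; simp only [mul_assoc]
        _ = u ^ (j + 1) * (d ^ j * u) * d := by rw [ih]; simp only [mul_assoc]
        _ = u ^ (j + 1) * (u * d ^ j) * d := by rw [(hd'.pow_right j).eq]
        _ = u ^ (j + 1 + 1) * d ^ (j + 1) := by
          rw [pow_succ u (j + 1), pow_succ d]; simp only [mul_assoc]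
  have h5 : q ^ 4 * u = (d ^ 4 * u) * u * u ^ 3 := by
    rw [h4 4, ((hd'.pow_left (4 + 1)).pow_right 4).eq, mul_assoc, mul_assoc]
    congr 1
  have hq4 : ∀ g : F, (q ^ 4 : AddMonoid.End F) g = p ^ (4 * e) • g := by
    intro g
    have h6 : (q ^ 4 : AddMonoid.End F) = ((p ^ (4 * e) : ℕ) : AddMonoid.End F) := by
      rw [hq, ← Nat.cast_pow, ← pow_mul, mul_comm e 4]
    rw [h6]
    rfl
  have h6 : ∀ n (f : F), ∃ g : F,
      u (p ^ (4 * e) • f) = ((d ^ 4 * u) ^ n : AddMonoid.End F) (u (p ^ (4 * e) • g)) := by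
    intro n
    induction n with
    | zero => intro f; exact ⟨f, rfl⟩
    | succ n ih =>
      intro f
      obtain ⟨g, hg⟩ := ih f
      obtain ⟨g', hg'⟩ := h3 g
      refine ⟨g', ?_⟩
      rw [hg]
      have h7 : u (p ^ (4 * e) • g) = (d ^ 4 * u) (u (p ^ (4 * e) • g')) := by
        calc u (p ^ (4 * e) • g) = (q ^ 4 * u : AddMonoid.End F) g := by
              rw [map_nsmul, ← hq4]; rfl
          _ = ((d ^ 4 * u) * u * u ^ 3 : AddMonoid.End F) g := by rw [h5]
          _ = (d ^ 4 * u) (u ((u ^ 3 : AddMonoid.End F) g)) := rfl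
          _ = (d ^ 4 * u) (u (p ^ (4 * e) • g')) := by rw [hg']
      rw [h7, pow_succ]
      rfl
  have h8 : u (p ^ (4 * e) • f) = 0 := by
    obtain ⟨g, hg⟩ := h6 N f
    rw [hg, (hd'.symm.pow_left 4).mul_pow, hN, mul_zero]
    rfl
  rw [hxu]
  change p ^ (4 * e) • f + u (p ^ (4 * e) • f) = p ^ (4 * e) • f
  rw [h8, add_zero]

end Pool.Agent.Helper41.GM
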