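import Mathlib

/-!
MP_aa96c4_al, project GM.  A uniform version (all primes, `p = 2` included) of Laffey's theorem:
every finite `p`-group `P` has a subgroup `E` of class at most `2` and exponent dividing `p ^ 3`
such that `|E| ≥ |P : M|` for every subgroup `M` which contains all commutators and all
`p ^ 2`-th powers.  (memo_P2_helper41.md, Lemma L.)
-/

namespace Pool.Agent.Helper41.GM

open Subgroup
open scoped commutatorElement

/-- The subgroup generated by the commutators and the `q`-th powers. -/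
def Fr (q : ℕ) (H : Type*) [Group H] : Subgroup H :=
  commutator H ⊔ Subgroup.closure (Set.range fun x : H => x ^ q)

section

variable {H : Type*} [Group H] {q : ℕ}

theorem comm_le_Fr : commutator H ≤ Fr q H := le_sup_left

theorem commEl_mem_Fr (x y : H) : ⁅x, y⁆ ∈ Fr q H :=
  comm_le_Fr (Subgroup.commutator_mem_commutator (Subgroup.mem_top x) (Subgroup.mem_top y))

theorem pow_mem_Fr (x : H) : x ^ q ∈ Fr q H :=
  (le_sup_right : _ ≤ Fr q H) (Subgroup.subset_closure ⟨x, rfl⟩)

theorem Fr_le {M : Subgroup H} (h1 : commutator H ≤ M) (h2 : ∀ x : H, x ^ q ∈ M) : Fr q H ≤ M := by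
  refine sup_le h1 ?_
  rw [Subgroup.closure_le]
  rintro _ ⟨x, rfl⟩
  exact h2 x

instance Fr_normal : (Fr q H).Normal := by
  constructor
  intro n hn g
  have h : g * n * g⁻¹ = ⁅g, n⁆ * n := by
    simp [commutatorElement_def]
  rw [h]
  exact mul_mem (commEl_mem_Fr g n) hn

/-- `Fr` under a surjective homomorphism. -/
theorem map_Fr {K : Type*} [Group K] (φ : H →* K) (hφ : Function.Surjective φ) :
    (Fr q H).map φ = Fr q K := by
  apply le_antisymm
  · rw [Subgroup.map_le_iff_le_comap]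
    refine Fr_le ?_ ?_
    · rw [← Subgroup.map_le_iff_le_comap]
      refine le_trans ?_ comm_le_Fr
      rw [commutator_def, commutator_def, Subgroup.map_commutator]
      exact Subgroup.commutator_mono le_top le_top
    · intro x
      rw [Subgroup.mem_comap, map_pow]
      exact pow_mem_Fr _
  · refine Fr_le ?_ ?_
    · have h : (commutator H).map φ = commutator K := by
        rw [commutator_def, commutator_def, Subgroup.map_commutator,
          Subgroup.map_top_of_surjective φ hφ]
      rw [← h]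
      exact Subgroup.map_mono comm_le_Fr
    · intro y
      obtain ⟨x, rfl⟩ := hφ y
      exact ⟨x ^ q, pow_mem_Fr x, map_pow _ _ _⟩

end

/-- Characters of a finite group: there are at most `|V|` homomorphisms `V → ℂˣ`. -/
theorem card_hom_le (V : Type*) [Group V] [Finite V] :
    Finite (V →* ℂˣ) ∧ Nat.card (V →* ℂˣ) ≤ Nat.card V := by
  have e : (V →* ℂˣ) ≃ (Abelianization V →* ℂˣ) := Abelianization.lift
  have : Finite (Abelianization V) := Quotient.finite _
  have h1 : Nat.card (Abelianization V →* ℂˣ) = Nat.card (Abelianization V) :=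
    CommGroup.card_monoidHom_of_hasEnoughRootsOfUnity _ _
  have h2 : Nat.card (Abelianization V) ≤ Nat.card V :=
    Nat.card_le_card_of_surjective (QuotientGroup.mk' (commutator V))
      (QuotientGroup.mk'_surjective _)
  have h3 : Finite (Abelianization V →* ℂˣ) := by
    apply Nat.finite_of_card_ne_zero
    rw [h1]
    exact Nat.card_pos.ne'
  refine ⟨Finite.of_equiv _ e.symm, ?_⟩
  rw [Nat.card_congr e, h1]
  exact h2


/-- The power formula in a group with central commutators. -/
theorem mul_pow_central {H : Type*} [Group H] {x y c : H} (hc : c ∈ center H)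
    (h : y * x = c * (x * y)) (n : ℕ) :
    (x * y) ^ n = c ^ (n * (n - 1) / 2) * (x ^ n * y ^ n) := by
  have hcc : ∀ g : H, g * c = c * g := fun g => Subgroup.mem_center_iff.1 hc g
  have hck : ∀ (k : ℕ) (g : H), g * c ^ k = c ^ k * g := fun k g => by
    exact ((Commute.pow_right (show Commute g c from hcc g) k)).eq
  have h1 : ∀ n : ℕ, y ^ n * x = c ^ n * (x * y ^ n) := by
    intro n
    induction n with
    | zero => simp
    | succ n ih =>
      calc y ^ (n + 1) * x = y * (y ^ n * x) := by rw [pow_succ']; group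
        _ = y * (c ^ n * (x * y ^ n)) := by rw [ih]
        _ = (y * c ^ n) * (x * y ^ n) := by group
        _ = c ^ n * (y * x) * y ^ n := by rw [hck]; group
        _ = c ^ n * (c * (x * y)) * y ^ n := by rw [h]
        _ = c ^ (n + 1) * (x * y ^ (n + 1)) := by rw [pow_succ c, pow_succ' y]; group
  induction n with
  | zero => simp
  | succ n ih =>
    have h2 : (n + 1) * (n + 1 - 1) / 2 = n * (n - 1) / 2 + n := by
      have h3 := Nat.triangle_succ n
      simpa using h3
    calc (x * y) ^ (n + 1) = (x * y) ^ n * (x * y) := pow_succ _ _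
      _ = c ^ (n * (n - 1) / 2) * (x ^ n * (y ^ n * x) * y) := by rw [ih]; group
      _ = c ^ (n * (n - 1) / 2) * (x ^ n * (c ^ n * (x * y ^ n)) * y) := by rw [h1]
      _ = c ^ (n * (n - 1) / 2) * ((x ^ n * c ^ n) * x * y ^ n * y) := by group
      _ = c ^ (n * (n - 1) / 2) * (c ^ n * x ^ n * x * y ^ n * y) := by rw [hck]
      _ = c ^ ((n + 1) * (n + 1 - 1) / 2) * (x ^ (n + 1) * y ^ (n + 1)) := by
        rw [h2, pow_add, pow_succ x, pow_succ y]; group

/-- The case in which `Fr` is central. -/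
theorem direct {p : ℕ} (hp : p.Prime) {H : Type*} [Group H] [Finite H]
    (hF : Fr (p ^ 2) H ≤ center H) :
    ∃ E : Subgroup H, (∀ x ∈ E, ∀ y ∈ E, ∀ z ∈ E, ⁅⁅x, y⁆, z⁆ = 1) ∧
      (∀ x ∈ E, x ^ (p ^ 3) = 1) ∧ (Fr (p ^ 2) H).index ≤ Nat.card E := by
  have hcen : ∀ x y : H, ⁅x, y⁆ ∈ center H := fun x y => hF (commEl_mem_Fr x y)
  have hcq : ∀ x y : H, ⁅y, x⁆ ^ (p ^ 2) = 1 := by
    intro x y
    have hc := hcen y x
    have h1 : y * x * y⁻¹ = ⁅y, x⁆ * x := by simp [commutatorElement_def]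
    have h2 : y * x ^ (p ^ 2) * y⁻¹ = x ^ (p ^ 2) := by
      have h3 := Subgroup.mem_center_iff.1 (hF (pow_mem_Fr x)) y
      rw [h3]; group
    have h4 : (⁅y, x⁆ * x) ^ (p ^ 2) = ⁅y, x⁆ ^ (p ^ 2) * x ^ (p ^ 2) := by
      apply Commute.mul_pow
      exact (Subgroup.mem_center_iff.1 hc x).symm
    rw [← h1, conj_pow, h2] at h4
    exact (mul_eq_right.1 h4.symm)
  have hdiv : p ^ 2 ∣ p ^ 3 * (p ^ 3 - 1) / 2 := by
    rcases hp.eq_two_or_odd' with rfl | ho
    · norm_num
    · have h1 : 2 ∣ p ^ 3 - 1 := by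
        have := (Nat.Odd.sub_odd (Odd.pow (n := 3) ho) odd_one)
        exact this.two_dvd
      rw [Nat.mul_div_assoc _ h1]
      exact Dvd.dvd.mul_right (pow_dvd_pow p (by norm_num)) _
  have hmul : ∀ x y : H, (x * y) ^ (p ^ 3) = x ^ (p ^ 3) * y ^ (p ^ 3) := by
    intro x y
    have h1 : y * x = ⁅y, x⁆ * (x * y) := by simp [commutatorElement_def]
    rw [mul_pow_central (hcen y x) h1]
    obtain ⟨k, hk⟩ := hdiv
    rw [hk, pow_mul, hcq, one_pow, one_mul]
  let φ : H →* H := { toFun := fun x => x ^ (p ^ 3), map_one' := one_pow _, map_mul' := hmul }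
  refine ⟨φ.ker, ?_, ?_, ?_⟩
  · intro x _ y _ z _
    rw [commutatorElement_eq_one_iff_mul_comm]
    exact (Subgroup.mem_center_iff.1 (hcen x y) z).symm
  · intro x hx
    exact hx
  · have h1 : Nat.card φ.ker * Nat.card φ.range = Nat.card H := by
      rw [← Subgroup.index_ker]
      exact Subgroup.card_mul_index _
    have h2 : φ.range ≤ Fr (p ^ 2) H := by
      rintro _ ⟨x, rfl⟩
      have h3 : φ x = (x ^ p) ^ (p ^ 2) := by
        change x ^ (p ^ 3) = _
        rw [← pow_mul]; congr 1; ring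
      rw [h3]
      exact pow_mem_Fr _
    have h3 : Nat.card φ.range ≤ Nat.card (Fr (p ^ 2) H) :=
      Subgroup.card_le_of_le h2
    have h4 : Nat.card (Fr (p ^ 2) H) * (Fr (p ^ 2) H).index = Nat.card H :=
      Subgroup.card_mul_index _
    have h5 : 0 < Nat.card (Fr (p ^ 2) H) := Nat.card_pos
    have h6 : Nat.card (Fr (p ^ 2) H) * (Fr (p ^ 2) H).index ≤
        Nat.card (Fr (p ^ 2) H) * Nat.card φ.ker := by
      rw [h4, ← h1, mul_comm]
      exact Nat.mul_le_mul_right _ h3
    exact Nat.le_of_mul_le_mul_left h6 h5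

/-- Conjugation of `a` by the powers of `w`. -/
theorem conj_pow_formula {H : Type*} [Group H] {w a t z : H} (hz : z ∈ center H)
    (h1 : w * a * w⁻¹ = t * a) (h2 : w * t * w⁻¹ = z * t) (n : ℕ) :
    w ^ n * a * (w ^ n)⁻¹ = z ^ (n * (n - 1) / 2) * t ^ n * a := by
  have hzc : ∀ g : H, g * z = z * g := fun g => Subgroup.mem_center_iff.1 hz g
  have hzk : ∀ (k : ℕ) (g : H), g * z ^ k = z ^ k * g := fun k g =>
    ((Commute.pow_right (show Commute g z from hzc g) k)).eq
  induction n with
  | zero => simp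
  | succ n ih =>
    have h3 : (n + 1) * (n + 1 - 1) / 2 = n * (n - 1) / 2 + n := by
      have h3 := Nat.triangle_succ n
      simpa using h3
    have h4 : w * t ^ n * w⁻¹ = z ^ n * t ^ n := by
      rw [← conj_pow, h2]
      exact Commute.mul_pow (show Commute z t from (hzc t).symm) n
    calc w ^ (n + 1) * a * (w ^ (n + 1))⁻¹ = w * (w ^ n * a * (w ^ n)⁻¹) * w⁻¹ := by
          rw [pow_succ']; group
      _ = w * (z ^ (n * (n - 1) / 2) * t ^ n * a) * w⁻¹ := by rw [ih]
      _ = (w * z ^ (n * (n - 1) / 2)) * w⁻¹ * (w * t ^ n * w⁻¹) * (w * a * w⁻¹) := by group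
      _ = z ^ (n * (n - 1) / 2) * (z ^ n * t ^ n) * (t * a) := by
        rw [hzk, h4, h1]; group
      _ = z ^ ((n + 1) * (n + 1 - 1) / 2) * t ^ (n + 1) * a := by
        rw [h3, pow_add, pow_succ t]; group

theorem p_dvd_tri {p : ℕ} (hp : p.Prime) : p ∣ p ^ 2 * (p ^ 2 - 1) / 2 := by
  rcases hp.eq_two_or_odd' with rfl | ho
  · norm_num
  · have h1 : 2 ∣ p ^ 2 - 1 := (Nat.Odd.sub_odd (Odd.pow (n := 2) ho) odd_one).two_dvd
    rw [Nat.mul_div_assoc _ h1]
    exact Dvd.dvd.mul_right (dvd_pow_self p (by norm_num)) _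

/-- The index of the centraliser of `F` is at most `|F : F ∩ Z(H)|` if `[F, H]` is central of
prime order. -/
theorem index_centralizer_le {p : ℕ} (hp : p.Prime) {H : Type*} [Group H] [Finite H]
    (F : Subgroup H) [F.Normal] (hZ : ⁅F, (⊤ : Subgroup H)⁆ ≤ center H)
    (hcard : Nat.card ↥⁅F, (⊤ : Subgroup H)⁆ = p) :
    (centralizer (F : Set H)).index ≤ ((center H).subgroupOf F).index := by
  classical
  have : Fact p.Prime := ⟨hp⟩
  have hpos : 0 < p := hp.pos
  -- an embedding of `Z` into the circle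
  have e : ↥⁅F, (⊤ : Subgroup H)⁆ ≃* rootsOfUnity p ℂ :=
    mulEquivOfPrimeCardEq hcard (by
      have : NeZero p := ⟨hpos.ne'⟩
      exact Complex.card_rootsOfUnity p)
  have hmem : ∀ (w : H) (f : F), ⁅w, (f : H)⁆ ∈ ⁅F, (⊤ : Subgroup H)⁆ := by
    intro w f
    rw [Subgroup.commutator_comm]
    exact Subgroup.commutator_mem_commutator (Subgroup.mem_top w) f.2
  -- the pairing
  let c : H → F → ↥⁅F, (⊤ : Subgroup H)⁆ := fun w f => ⟨⁅w, (f : H)⁆, hmem w f⟩
  have hcz : ∀ (w : H) (f : F) (g : H), g * ⁅w, (f : H)⁆ = ⁅w, (f : H)⁆ * g := fun w f g =>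
    Subgroup.mem_center_iff.1 (hZ (hmem w f)) g
  have c1 : ∀ w f f', c w (f * f') = c w f * c w f' := by
    intro w f f'
    apply Subtype.ext
    change ⁅w, ((f * f' : F) : H)⁆ = ⁅w, (f : H)⁆ * ⁅w, (f' : H)⁆
    have h := hcz w f' (f : H)
    calc ⁅w, ((f * f' : F) : H)⁆ = ⁅w, (f : H)⁆ * (f * ⁅w, (f' : H)⁆) * (f : H)⁻¹ := by
          simp [commutatorElement_def, mul_assoc]
      _ = ⁅w, (f : H)⁆ * ⁅w, (f' : H)⁆ := by rw [h]; group
  have c2 : ∀ w w' f, c (w * w') f = c w f * c w' f := by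
    intro w w' f
    apply Subtype.ext
    change ⁅w * w', (f : H)⁆ = ⁅w, (f : H)⁆ * ⁅w', (f : H)⁆
    have h := hcz w' f w
    calc ⁅w * w', (f : H)⁆ = (w * ⁅w', (f : H)⁆) * (f * w⁻¹ * (f : H)⁻¹) := by
          simp [commutatorElement_def, mul_assoc]
      _ = ⁅w', (f : H)⁆ * ⁅w, (f : H)⁆ := by rw [h, commutatorElement_def w]; group
      _ = ⁅w, (f : H)⁆ * ⁅w', (f : H)⁆ := (hcz w' f _).symm
  let B : H →* (F →* ℂˣ) :=
    { toFun := fun w =>
        { toFun := fun f => ((e (c w f) : rootsOfUnity p ℂ) : ℂˣ)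
          map_one' := by
            have h : c w 1 = 1 := by
              apply Subtype.ext
              change ⁅w, ((1 : F) : H)⁆ = 1
              simp [commutatorElement_def]
            rw [h, map_one]; rfl
          map_mul' := fun f f' => by rw [c1, map_mul]; rfl }
      map_one' := by
        ext f
        have h : c 1 f = 1 := by
          apply Subtype.ext
          change ⁅(1 : H), (f : H)⁆ = 1
          simp [commutatorElement_def]
        change (((e (c 1 f) : rootsOfUnity p ℂ) : ℂˣ) : ℂ) = 1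
        rw [h, map_one]; rfl
      map_mul' := fun w w' => by
        ext f
        change (((e (c (w * w') f) : rootsOfUnity p ℂ) : ℂˣ) : ℂ) = _
        rw [c2, map_mul]; rfl }
  have hker : B.ker = centralizer (F : Set H) := by
    ext w
    rw [MonoidHom.mem_ker, Subgroup.mem_centralizer_iff]
    constructor
    · intro h f hf
      have h1 : B w ⟨f, hf⟩ = 1 := by rw [h]; rfl
      have h2 : e (c w ⟨f, hf⟩) = 1 := Subtype.ext h1
      have h3 : c w ⟨f, hf⟩ = 1 := by
        rwa [MulEquiv.map_eq_one_iff] at h2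
      have h4 : ⁅w, f⁆ = 1 := congrArg Subtype.val h3
      exact (commutatorElement_eq_one_iff_mul_comm.1 h4).symm
    · intro h
      apply MonoidHom.ext
      intro f
      have h4 : ⁅w, (f : H)⁆ = 1 :=
        commutatorElement_eq_one_iff_mul_comm.2 (h f f.2).symm
      have h3 : c w f = 1 := Subtype.ext h4
      change ((e (c w f) : rootsOfUnity p ℂ) : ℂˣ) = 1
      rw [h3, map_one]; rfl
  -- every `B w` factors through `F / (F ∩ Z(H))`
  let V := F ⧸ (center H).subgroupOf F
  have hfac : ∀ w : H, (center H).subgroupOf F ≤ (B w).ker := by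
    intro w f hf
    rw [MonoidHom.mem_ker]
    have h1 := Subgroup.mem_center_iff.1 (Subgroup.mem_subgroupOf.1 hf) w
    have h4 : ⁅w, (f : H)⁆ = 1 := commutatorElement_eq_one_iff_mul_comm.2 h1
    have h3 : c w f = 1 := Subtype.ext h4
    change ((e (c w f) : rootsOfUnity p ℂ) : ℂˣ) = 1
    rw [h3, map_one]; rfl
  have hVfin : Finite V := Quotient.finite _
  obtain ⟨hfin, hle⟩ := card_hom_le V
  let ι : B.range → (V →* ℂˣ) := fun b =>
    QuotientGroup.lift _ (b : F →* ℂˣ) (fun f hf => by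
      obtain ⟨w, hw⟩ := b.2
      rw [← hw]
      exact hfac w hf)
  have hι : Function.Injective ι := by
    intro b b' h
    apply Subtype.ext
    apply MonoidHom.ext
    intro f
    have h1 := congrArg (fun φ : V →* ℂˣ => φ (QuotientGroup.mk f)) h
    exact h1
  have h1 : (centralizer (F : Set H)).index = Nat.card B.range := by
    rw [← hker, Subgroup.index_ker]
  rw [h1]
  calc Nat.card B.range ≤ Nat.card (V →* ℂˣ) := Nat.card_le_card_of_injective ι hι
    _ ≤ Nat.card V := hle
    _ = ((center H).subgroupOf F).index := (Subgroup.index_eq_card _).symm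

/-- Lemma A: if `[F, H]` is central of prime order, the centraliser `C` of `F = H' H ^ q` is a
proper subgroup with `|C : C' C ^ q| ≥ |H : F|`. -/
theorem lemmaA {p : ℕ} (hp : p.Prime) {H : Type*} [Group H] [Finite H]
    (hZ : ⁅Fr (p ^ 2) H, (⊤ : Subgroup H)⁆ ≤ center H)
    (hcard : Nat.card ↥⁅Fr (p ^ 2) H, (⊤ : Subgroup H)⁆ = p) :
    ∃ C : Subgroup H, C ≠ ⊤ ∧ (Fr (p ^ 2) H).index ≤ (Fr (p ^ 2) C).index := by
  classical
  set F := Fr (p ^ 2) H with hF
  refine ⟨centralizer (F : Set H), ?_, ?_⟩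
  · intro htop
    have h1 : ⁅F, (⊤ : Subgroup H)⁆ = ⊥ := by
      rw [Subgroup.commutator_eq_bot_iff_le_centralizer]
      intro f hf
      rw [Subgroup.mem_centralizer_iff]
      intro w _
      have hw : w ∈ centralizer (F : Set H) := htop ▸ Subgroup.mem_top w
      exact (Subgroup.mem_centralizer_iff.1 hw f hf).symm
    rw [h1, Subgroup.card_bot] at hcard
    exact hp.one_lt.ne hcard
  · set C := centralizer (F : Set H) with hC
    have hCF : ∀ a ∈ C, ∀ f ∈ F, f * a = a * f := fun a ha f hf =>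
      Subgroup.mem_centralizer_iff.1 ha f hf
    -- commutators of elements of `C`
    have hfc : ⁅F, C⁆ = ⊥ := by
      rw [Subgroup.commutator_eq_bot_iff_le_centralizer]
      intro f hf
      rw [Subgroup.mem_centralizer_iff]
      intro a ha
      exact (hCF a ha f hf).symm
    have hcomm : ⁅C, C⁆ ≤ center H := by
      have h1 : ⁅⁅C, (⊤ : Subgroup H)⁆, C⁆ = ⊥ := by
        apply le_bot_iff.1
        calc ⁅⁅C, (⊤ : Subgroup H)⁆, C⁆ ≤ ⁅F, C⁆ := by
              apply Subgroup.commutator_mono _ le_rfl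
              refine le_trans (Subgroup.commutator_mono le_top le_rfl) ?_
              exact comm_le_Fr
          _ ≤ ⊥ := hfc.le
      have h2 : ⁅⁅(⊤ : Subgroup H), C⁆, C⁆ = ⊥ := by
        rw [Subgroup.commutator_comm (⊤ : Subgroup H) C]
        exact h1
      have h3 : ⁅⁅C, C⁆, (⊤ : Subgroup H)⁆ = ⊥ :=
        Subgroup.commutator_commutator_eq_bot_of_rotate h1 h2
      rw [Subgroup.commutator_eq_bot_iff_le_centralizer] at h3
      rwa [Subgroup.coe_top, Subgroup.centralizer_univ] at h3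
    -- powers of elements of `C`
    have hpow : ∀ a ∈ C, a ^ (p ^ 2) ∈ center H := by
      intro a ha
      rw [Subgroup.mem_center_iff]
      intro w
      have htF : ⁅w, a⁆ ∈ F := commEl_mem_Fr w a
      have hzZ : ⁅w, ⁅w, a⁆⁆ ∈ ⁅F, (⊤ : Subgroup H)⁆ := by
        rw [Subgroup.commutator_comm]
        exact Subgroup.commutator_mem_commutator (Subgroup.mem_top w) htF
      have h1 : w * a * w⁻¹ = ⁅w, a⁆ * a := by simp [commutatorElement_def]
      have h2 : w * ⁅w, a⁆ * w⁻¹ = ⁅w, ⁅w, a⁆⁆ * ⁅w, a⁆ := by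
        simp [commutatorElement_def, mul_assoc]
      have h3 := conj_pow_formula (hZ hzZ) h1 h2 (p ^ 2)
      have h4 : ⁅w, ⁅w, a⁆⁆ ^ (p ^ 2 * (p ^ 2 - 1) / 2) = 1 := by
        obtain ⟨k, hk⟩ := p_dvd_tri hp
        have h5 : ⁅w, ⁅w, a⁆⁆ ^ p = 1 := by
          have h6 := pow_card_eq_one' (x := (⟨_, hzZ⟩ : ↥⁅F, (⊤ : Subgroup H)⁆))
          rw [hcard] at h6
          exact congrArg Subtype.val h6
        rw [hk, pow_mul, h5, one_pow]
      have h5 : w ^ (p ^ 2) * a = a * w ^ (p ^ 2) := hCF a ha _ (pow_mem_Fr w)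
      have h6 : ⁅w, a⁆ ^ (p ^ 2) = 1 := by
        rw [h4, one_mul, h5, mul_inv_cancel_right] at h3
        exact (mul_eq_right.1 h3.symm)
      have h7 : w * a ^ (p ^ 2) * w⁻¹ = a ^ (p ^ 2) := by
        rw [← conj_pow, h1]
        rw [Commute.mul_pow (show Commute ⁅w, a⁆ a from hCF a ha _ htF), h6, one_mul]
      calc w * a ^ (p ^ 2) = (w * a ^ (p ^ 2) * w⁻¹) * w := by group
        _ = a ^ (p ^ 2) * w := by rw [h7]
    -- so `Fr C` is inside `F ∩ Z(H)`
    have hle : (Fr (p ^ 2) C).map C.subtype ≤ F ⊓ center H := by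
      rw [Subgroup.map_le_iff_le_comap]
      refine Fr_le ?_ ?_
      · rw [← Subgroup.map_le_iff_le_comap, commutator_def, Subgroup.map_commutator]
        have h8 : (⊤ : Subgroup C).map C.subtype = C := by
          rw [← MonoidHom.range_eq_map, Subgroup.range_subtype]
        rw [h8]
        exact le_inf (le_trans (Subgroup.commutator_mono le_top le_top) comm_le_Fr) hcomm
      · intro x
        rw [Subgroup.mem_comap, map_pow]
        exact ⟨pow_mem_Fr _, hpow _ x.2⟩
    have hle' : Nat.card (Fr (p ^ 2) C) ≤ Nat.card ↥(F ⊓ center H) := by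
      have h9 : Nat.card (Fr (p ^ 2) C) = Nat.card ((Fr (p ^ 2) C).map C.subtype) :=
        Nat.card_congr ((Fr (p ^ 2) C).equivMapOfInjective _ C.subtype_injective).toEquiv
      rw [h9]
      exact Subgroup.card_le_of_le hle
    -- the count
    have k1 : C.index ≤ ((center H).subgroupOf F).index := index_centralizer_le hp F hZ hcard
    have k2 : Nat.card F * F.index = Nat.card H := Subgroup.card_mul_index _
    have k3 : Nat.card (Fr (p ^ 2) C) * (Fr (p ^ 2) C).index = Nat.card C :=
      Subgroup.card_mul_index _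
    have k4 : Nat.card C * C.index = Nat.card H := Subgroup.card_mul_index _
    have k5 : Nat.card ((center H).subgroupOf F) * ((center H).subgroupOf F).index = Nat.card F :=
      Subgroup.card_mul_index _
    have k6 : Nat.card ((center H).subgroupOf F) = Nat.card ↥(F ⊓ center H) := by
      rw [inf_comm, ← Subgroup.subgroupOf_map_subtype]
      exact Nat.card_congr
        (((center H).subgroupOf F).equivMapOfInjective _ F.subtype_injective).toEquiv
    rw [k6] at k5
    have kF : 0 < Nat.card F := Nat.card_pos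
    refine Nat.le_of_mul_le_mul_left ?_ kF
    calc Nat.card F * F.index = Nat.card C * C.index := by rw [k2, k4]
      _ = Nat.card (Fr (p ^ 2) C) * (Fr (p ^ 2) C).index * C.index := by rw [k3]
      _ ≤ Nat.card ↥(F ⊓ center H) * (Fr (p ^ 2) C).index *
          ((center H).subgroupOf F).index :=
        Nat.mul_le_mul (Nat.mul_le_mul_right _ hle') k1
      _ = Nat.card ↥(F ⊓ center H) * ((center H).subgroupOf F).index *
          (Fr (p ^ 2) C).index := by ring
      _ = Nat.card F * (Fr (p ^ 2) C).index := by rw [k5]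

/-- In a nilpotent group a nontrivial subgroup `K` is not contained in `[K, G]`. -/
theorem not_le_comm {G : Type*} [Group G] [Group.IsNilpotent G] {K : Subgroup G} (hK : K ≠ ⊥) :
    ¬ K ≤ ⁅K, (⊤ : Subgroup G)⁆ := by
  intro h
  apply hK
  have h1 : ∀ n, K ≤ Subgroup.lowerCentralSeries (⊤ : Subgroup G) n := by
    intro n
    induction n with
    | zero => exact le_top
    | succ n ih => exact le_trans h (Subgroup.commutator_mono ih le_rfl)
  obtain ⟨n, hn⟩ := Subgroup.nilpotent_iff_lowerCentralSeries.1 (inferInstance : Group.IsNilpotent G)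
  exact le_bot_iff.1 (hn ▸ h1 n)

/-- Lemma B. -/
theorem lemmaB {p : ℕ} (hp : p.Prime) {H : Type*} [Group H] [Finite H] (hH : IsPGroup p H)
    (hF : ¬ Fr (p ^ 2) H ≤ center H) :
    ∃ C : Subgroup H, C ≠ ⊤ ∧ (Fr (p ^ 2) H).index ≤ (Fr (p ^ 2) C).index := by
  classical
  have : Fact p.Prime := ⟨hp⟩
  have hnil : Group.IsNilpotent H := hH.isNilpotent
  set F := Fr (p ^ 2) H with hFdef
  set K := ⁅F, (⊤ : Subgroup H)⁆ with hK
  have hKn : K.Normal := by rw [hK]; infer_instance
  have hKF : K ≤ F := by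
    rw [hK]; exact le_trans (Subgroup.commutator_mono le_top le_rfl) comm_le_Fr
  have hK0 : K ≠ ⊥ := by
    intro h
    apply hF
    rw [hK, Subgroup.commutator_eq_bot_iff_le_centralizer, Subgroup.coe_top,
      Subgroup.centralizer_univ] at h
    exact h
  set K₂ := ⁅K, (⊤ : Subgroup H)⁆ with hK₂
  have hK₂K : K₂ ≤ K := by
    rw [hK₂]; exact Subgroup.commutator_le_left K ⊤
  have hK₂ne : ¬ K ≤ K₂ := not_le_comm hK0
  -- orders
  obtain ⟨k, hk⟩ := (hH.to_subgroup K).exists_card_eq
  have hS : IsPGroup p (K₂.subgroupOf K) := (hH.to_subgroup K).to_subgroup _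
  obtain ⟨j, hj⟩ := hS.exists_card_eq
  have hjk : j < k := by
    have h1 : K₂.subgroupOf K ≠ ⊤ := by
      rw [Ne, Subgroup.subgroupOf_eq_top]
      exact hK₂ne
    have h2 : Nat.card (K₂.subgroupOf K) < Nat.card K := by
      apply lt_of_le_of_ne (Subgroup.card_le_card_group _)
      intro h3
      exact h1 (Subgroup.eq_top_of_card_eq _ h3)
    rw [hj, hk] at h2
    exact (Nat.pow_lt_pow_iff_right hp.one_lt).1 h2
  have hdv : p ^ (k - 1) ∣ Nat.card K := by rw [hk]; exact pow_dvd_pow p (Nat.sub_le _ _)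
  obtain ⟨N', hN'card, hN'le⟩ := Sylow.exists_subgroup_card_pow_prime_le p hdv
    (K₂.subgroupOf K) hj (by omega)
  set N := N'.map K.subtype with hN
  have hNK : N ≤ K := by
    rw [hN]; exact Subgroup.map_subtype_le N'
  have hK₂N : K₂ ≤ N := by
    intro x hx
    exact ⟨⟨x, hK₂K hx⟩, hN'le (Subgroup.mem_subgroupOf.2 hx), rfl⟩
  have hNn : N.Normal := by
    constructor
    intro n hn g
    have h : g * n * g⁻¹ = ⁅g, n⁆ * n := by simp [commutatorElement_def]
    rw [h]
    refine mul_mem (hK₂N ?_) hn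
    rw [hK₂, Subgroup.commutator_comm]
    exact Subgroup.commutator_mem_commutator (Subgroup.mem_top g) (hNK hn)
  set π := QuotientGroup.mk' N with hπ
  have hπs : Function.Surjective π := QuotientGroup.mk'_surjective N
  have hker : π.ker = N := QuotientGroup.ker_mk' N
  have hFr : F.map π = Fr (p ^ 2) (H ⧸ N) := map_Fr π hπs
  have hKm : ⁅Fr (p ^ 2) (H ⧸ N), (⊤ : Subgroup (H ⧸ N))⁆ = K.map π := by
    rw [hK, Subgroup.map_commutator, Subgroup.map_top_of_surjective π hπs, hFr]
  have hcen : ⁅Fr (p ^ 2) (H ⧸ N), (⊤ : Subgroup (H ⧸ N))⁆ ≤ center (H ⧸ N) := by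
    have h1 : ⁅K.map π, (⊤ : Subgroup (H ⧸ N))⁆ = ⊥ := by
      rw [← Subgroup.map_top_of_surjective π hπs, ← Subgroup.map_commutator]
      rw [Subgroup.map_eq_bot_iff, hker]
      exact hK₂N
    rw [Subgroup.commutator_eq_bot_iff_le_centralizer, Subgroup.coe_top,
      Subgroup.centralizer_univ] at h1
    rw [hKm]
    exact h1
  have hcard : Nat.card ↥⁅Fr (p ^ 2) (H ⧸ N), (⊤ : Subgroup (H ⧸ N))⁆ = p := by
    rw [hKm, ← Subgroup.relIndex_ker, hker]
    have h1 : N.relIndex K = N'.index := by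
      rw [Subgroup.relIndex, hN]
      congr 1
      ext x
      rw [Subgroup.mem_subgroupOf]
      constructor
      · rintro ⟨y, hy, hxy⟩
        have : y = x := Subtype.ext hxy
        rwa [← this]
      · intro hx
        exact ⟨x, hx, rfl⟩
    rw [h1]
    have h2 : Nat.card N' * N'.index = Nat.card K := Subgroup.card_mul_index _
    rw [hN'card, hk] at h2
    have h3 : p ^ k = p ^ (k - 1) * p := by
      rw [← pow_succ]; congr 1; omega
    rw [h3] at h2
    exact Nat.eq_of_mul_eq_mul_left (pow_pos hp.pos _) h2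
  obtain ⟨C', hC'top, hC'⟩ := lemmaA hp hcen hcard
  refine ⟨C'.comap π, ?_, ?_⟩
  · intro h
    apply hC'top
    rw [← Subgroup.map_comap_eq_self_of_surjective hπs C', h,
      Subgroup.map_top_of_surjective π hπs]
  · have h1 : (Fr (p ^ 2) (H ⧸ N)).index = F.index := by
      rw [← hFr]
      exact Subgroup.index_map_eq F hπs (by rw [hker]; exact hNK.trans hKF)
    rw [← h1]
    refine hC'.trans ?_
    have h2 : Function.Surjective (π.subgroupComap C') := by
      rintro ⟨y, hy⟩
      obtain ⟨x, rfl⟩ := hπs y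
      exact ⟨⟨x, hy⟩, rfl⟩
    rw [← map_Fr (π.subgroupComap C') h2]
    apply Nat.le_of_dvd
    · exact Nat.pos_of_ne_zero Subgroup.index_ne_zero_of_finite
    · exact Subgroup.index_map_dvd _ h2

/-- The main theorem, with `Fr`. -/
theorem laffey_Fr {p : ℕ} (hp : p.Prime) : ∀ (n : ℕ) (H : Type*) [Group H] [Finite H],
    Nat.card H = n → IsPGroup p H →
    ∃ E : Subgroup H, (∀ x ∈ E, ∀ y ∈ E, ∀ z ∈ E, ⁅⁅x, y⁆, z⁆ = 1) ∧
      (∀ x ∈ E, x ^ (p ^ 3) = 1) ∧ (Fr (p ^ 2) H).index ≤ Nat.card E := by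
  intro n
  induction n using Nat.strong_induction_on with
  | _ n ih =>
    intro H _ _ hn hH
    by_cases hF : Fr (p ^ 2) H ≤ center H
    · exact direct hp hF
    · obtain ⟨C, hCtop, hC⟩ := lemmaB hp hH hF
      have hlt : Nat.card C < n := by
        rw [← hn]
        apply lt_of_le_of_ne (Subgroup.card_le_card_group _)
        intro h3
        exact hCtop (Subgroup.eq_top_of_card_eq _ h3)
      obtain ⟨E, h1, h2, h3⟩ := ih _ hlt C rfl (hH.to_subgroup C)
      refine ⟨E.map C.subtype, ?_, ?_, ?_⟩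
      · rintro _ ⟨x, hx, rfl⟩ _ ⟨y, hy, rfl⟩ _ ⟨z, hz, rfl⟩
        have h := congrArg C.subtype (h1 x hx y hy z hz)
        rw [map_commutatorElement, map_commutatorElement, map_one] at h
        exact h
      · rintro _ ⟨x, hx, rfl⟩
        rw [← map_pow, h2 x hx, map_one]
      · have h4 : Nat.card (E.map C.subtype) = Nat.card E :=
          (Nat.card_congr (E.equivMapOfInjective _ C.subtype_injective).toEquiv).symm
        rw [h4]
        exact hC.trans h3

/-- **Laffey's theorem, uniform in `p`**: every finite `p`-group `P` has a subgroup `E` of class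
at most `2` and exponent dividing `p ^ 3` with `|E| ≥ |P : M|` for every subgroup `M` containing
all commutators and all `p ^ 2`-th powers (for example the Frattini subgroup). -/
theorem laffey {p : ℕ} (hp : p.Prime) (P : Type*) [Group P] [Finite P] (hP : IsPGroup p P) :
    ∃ E : Subgroup P, (∀ x ∈ E, ∀ y ∈ E, ∀ z ∈ E, ⁅⁅x, y⁆, z⁆ = 1) ∧
      (∀ x ∈ E, x ^ (p ^ 3) = 1) ∧
      ∀ M : Subgroup P, (∀ x y : P, ⁅x, y⁆ ∈ M) → (∀ x : P, x ^ (p ^ 2) ∈ M) →
        M.index ≤ Nat.card E := by
  obtain ⟨E, h1, h2, h3⟩ := laffey_Fr hp _ P rfl hP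
  refine ⟨E, h1, h2, fun M hM1 hM2 => ?_⟩
  refine le_trans ?_ h3
  apply Nat.le_of_dvd
  · exact Nat.pos_of_ne_zero Subgroup.index_ne_zero_of_finite
  · apply Subgroup.index_dvd_of_le
    refine Fr_le ?_ hM2
    rw [commutator_def, Subgroup.commutator_le]
    intro x _ y _
    exact hM1 x y

end Pool.Agent.Helper41.GM
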